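import Pool.Agent.Helper99.WP.GoalsK

open Finset

namespace Pool.Agent.Helper99.WPP

open Pool.Agent.Helper99.ERW Pool.Agent.Helper99.WP

theorem SCL (hGCM : GCM_stmt) (hQQQ : QQQ_stmt) (hOCC : OCC_stmt)
    (hSHL : SHL_stmt) (hTEL : TEL_stmt) : SCL_stmt := by
  intro d κ ρ hκ hρ
  obtain ⟨K, c0, γ, hc0, hγ, hOCC⟩ := hOCC d κ hκ
  obtain ⟨b0, r0, c1, hc1, hr0, hSHL⟩ := hSHL d κ hκ
  obtain ⟨Qmem, Qcard, Qnb, Qsymm, Qtri, Qmono⟩ := hQQQ d
  set ρ1 : ℝ := ρ / 5 / 3 ^ d with hρ1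
  have hρ1p : 0 < ρ1 := by positivity
  set b : ℕ := max b0 (3 * K + 2) with hb
  have hb0 : b0 ≤ b := le_max_left _ _
  have hbK : 3 * K + 2 ≤ b := le_max_right _ _
  refine ⟨b, r0, c1 / 5 ^ d * (ρ / 5) * c0 * ρ1 ^ γ * 4, by positivity, by omega, hr0, ?_⟩
  intro p hp R r hr hrR A hA hAρ
  have hd : 1 ≤ d := by
    rcases Nat.eq_zero_or_pos d with h | h
    · subst h
      have := (hp 0).2
      simp at this
    · exact h
  have hr1 : 1 ≤ r := le_trans hr0 hr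
  have hrr : (1 : ℝ) ≤ r := by exact_mod_cast hr1
  have hrpos : (0 : ℝ) < r := by linarith
  set S : Site d → Finset (Site d) := fun x => Q (2 * r) x \ Q r x with hS
  have hmemS : ∀ x z, z ∈ S x ↔ x ∈ S z := by
    intro x z
    simp only [hS, mem_sdiff]
    rw [Qsymm (2 * r) x z, Qsymm r x z]
  have hQ2card : ∀ x : Site d, ((Q (2 * r) x).card : ℝ) = (4 * (r : ℝ) + 1) ^ d := by
    intro x
    rw [Qcard]
    push_cast
    ring
  have hQ2le : ∀ x : Site d, ((Q (2 * r) x).card : ℝ) ≤ (5 * (r : ℝ)) ^ d := by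
    intro x
    rw [hQ2card]
    exact pow_le_pow_left₀ (by positivity) (by linarith) d
  have hSle : ∀ x, ((S x).card : ℝ) ≤ (5 * (r : ℝ)) ^ d := by
    intro x
    refine le_trans ?_ (hQ2le x)
    exact_mod_cast card_le_card sdiff_subset
  have hScard : ∀ x, 2 / 5 * ((Q (2 * r) x).card : ℝ) ≤ (S x).card := by
    intro x
    have h1 : Q r x ⊆ Q (2 * r) x := Qmono r (2 * r) x (by omega)
    have h2 : ((S x).card : ℝ) = ((Q (2 * r) x).card : ℝ) - ((Q r x).card : ℝ) := by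
      have h3 := card_sdiff_add_card_eq_card h1
      have h4 : ((S x).card : ℝ) + ((Q r x).card : ℝ) = ((Q (2 * r) x).card : ℝ) := by
        exact_mod_cast h3
      linarith
    have h5 : ((Q r x).card : ℝ) ≤ 3 / 5 * ((Q (2 * r) x).card : ℝ) := by
      rw [hQ2card, Qcard]
      push_cast
      have h6 : (2 * (r : ℝ) + 1) ≤ 3 / 5 * (4 * (r : ℝ) + 1) := by linarith
      calc (2 * (r : ℝ) + 1) ^ d ≤ (3 / 5 * (4 * (r : ℝ) + 1)) ^ d :=
            pow_le_pow_left₀ (by positivity) h6 d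
        _ = (3 / 5 : ℝ) ^ d * (4 * (r : ℝ) + 1) ^ d := by rw [mul_pow]
        _ ≤ 3 / 5 * (4 * (r : ℝ) + 1) ^ d := by
            refine mul_le_mul_of_nonneg_right ?_ (by positivity)
            calc (3 / 5 : ℝ) ^ d ≤ (3 / 5 : ℝ) ^ 1 :=
                  pow_le_pow_of_le_one (by norm_num) (by norm_num) hd
              _ = 3 / 5 := by norm_num
    rw [h2]
    linarith
  have hgg0 : ∀ (D : Finset (Site d)) (z x : Site d), 0 ≤ gg p D z x := by
    intro D z x
    unfold gg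
    refine (hGCM d κ p hκ hp D).2.2.2.1 _ (fun y _ => ?_) z
    unfold ind
    split_ifs <;> norm_num
  -- step A
  have stepA : ∀ x ∈ A, c1 / (5 * (r : ℝ)) ^ d * ∑ z ∈ S x, gg p (Q (b * r) x) z x ≤
      gg p (Q (b * r) x) x x - gg p (Q r x) x x := by
    intro x _
    have hmle : ∀ z ∈ Q (3 * r) x, c1 / (5 * (r : ℝ)) ^ d * ∑ z ∈ S x, gg p (Q (b * r) x) z x ≤
        gg p (Q (b * r) x) z x := by
      intro z hz
      have h1 : ∑ z0 ∈ S x, c1 * gg p (Q (b * r) x) z0 x ≤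
          ∑ z0 ∈ S x, gg p (Q (b * r) x) z x := by
        refine sum_le_sum fun z0 hz0 => ?_
        simp only [hS, mem_sdiff] at hz0
        exact hSHL b hb0 p hp r hr x z0 z hz0.1 hz0.2 hz
      rw [← mul_sum, sum_const, nsmul_eq_mul] at h1
      have h2 : ((S x).card : ℝ) * gg p (Q (b * r) x) z x ≤
          (5 * (r : ℝ)) ^ d * gg p (Q (b * r) x) z x :=
        mul_le_mul_of_nonneg_right (hSle x) (hgg0 _ _ _)
      have h3 : (0 : ℝ) < (5 * (r : ℝ)) ^ d := by positivity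
      rw [div_mul_eq_mul_div, div_le_iff₀ h3]
      linarith
    have h4 := (hTEL d κ p hκ hp (Q r x) (Q (b * r) x) x
      (c1 / (5 * (r : ℝ)) ^ d * ∑ z ∈ S x, gg p (Q (b * r) x) z x)
      (Qmono r (b * r) x (by nlinarith)) ((Qmem r x x).2 fun l => by simp)).1 (by
        intro w hw l
        obtain ⟨h5, h6⟩ := Qnb r x w hw l
        have h7 : Q (r + 1) x ⊆ Q (3 * r) x := Qmono _ _ x (by omega)
        exact ⟨fun _ => hmle _ (h7 h5), fun _ => hmle _ (h7 h6)⟩)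
    linarith
  -- step B
  have stepB : ∑ z ∈ Q (R + 2 * r) (0 : Site d), Gr p (Q ((b - 2) * r) z) (ind (A ∩ S z)) z ≤
      ∑ x ∈ A, ∑ z ∈ S x, gg p (Q (b * r) x) z x := by
    have h1 : ∑ x ∈ A, ∑ z ∈ S x, gg p (Q ((b - 2) * r) z) z x =
        ∑ z ∈ Q (R + 2 * r) (0 : Site d), ∑ x ∈ A ∩ S z, gg p (Q ((b - 2) * r) z) z x := by
      refine sum_comm' fun x z => ?_
      rw [mem_inter]
      constructor
      · rintro ⟨hx, hz⟩
        refine ⟨⟨hx, (hmemS x z).1 hz⟩, ?_⟩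
        have h2 : z ∈ Q (2 * r) x := (mem_sdiff.1 hz).1
        have h3 := Qtri (2 * r) R x 0 (hA hx) h2
        rwa [Nat.add_comm] at h3
      · rintro ⟨⟨hx, hz⟩, _⟩
        exact ⟨hx, (hmemS x z).2 hz⟩
    have h2 : ∑ z ∈ Q (R + 2 * r) (0 : Site d), Gr p (Q ((b - 2) * r) z) (ind (A ∩ S z)) z =
        ∑ z ∈ Q (R + 2 * r) (0 : Site d), ∑ x ∈ A ∩ S z, gg p (Q ((b - 2) * r) z) z x := by
      refine sum_congr rfl fun z _ => ?_
      exact (hGCM d κ p hκ hp (Q ((b - 2) * r) z)).2.2.2.2.2.2 (A ∩ S z) z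
    rw [h2, ← h1]
    refine sum_le_sum fun x _ => sum_le_sum fun z hz => ?_
    have h3 : z ∈ Q (2 * r) x := (mem_sdiff.1 hz).1
    have h4 : Q ((b - 2) * r) z ⊆ Q (b * r) x := by
      have h5 := Qtri ((b - 2) * r) (2 * r) z x h3
      have h6 : (b - 2) * r + 2 * r = b * r := by
        rw [← Nat.add_mul]
        congr 1
        omega
      rwa [h6] at h5
    unfold gg
    refine (hGCM d κ p hκ hp (Q ((b - 2) * r) z)).2.2.2.2.2.1 (Q (b * r) x) h4 _ (fun y _ => ?_) z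
    unfold ind
    split_ifs <;> norm_num
  -- step C
  have stepC : ∀ z, c0 * (((A ∩ S z).card : ℝ) / (Q (2 * r) z).card) ^ γ * (4 * (r : ℝ) ^ 2) ≤
      Gr p (Q ((b - 2) * r) z) (ind (A ∩ S z)) z := by
    intro z
    have h1 : A ∩ S z ⊆ Q (2 * r) z := inter_subset_right.trans sdiff_subset
    have h2 := hOCC p hp (2 * r) z (A ∩ S z) h1 z ((Qmem (2 * r) z z).2 fun l => by simp)
    have h3 : Q (K * (2 * r + 1)) z ⊆ Q ((b - 2) * r) z := by
      refine Qmono _ _ z ?_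
      have h4 : 3 * K ≤ b - 2 := by omega
      calc K * (2 * r + 1) ≤ K * (3 * r) := Nat.mul_le_mul_left _ (by omega)
        _ = 3 * K * r := by ring
        _ ≤ (b - 2) * r := Nat.mul_le_mul_right _ h4
    have h4 := (hGCM d κ p hκ hp (Q (K * (2 * r + 1)) z)).2.2.2.2.2.1 (Q ((b - 2) * r) z) h3
      (ind (A ∩ S z)) (fun y _ => by unfold ind; split_ifs <;> norm_num) z
    refine le_trans ?_ (le_trans h2 h4)
    refine mul_le_mul_of_nonneg_left ?_ (by positivity)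
    push_cast
    nlinarith
  -- step D
  set ZZ : Finset (Site d) := (Q (R + 2 * r) (0 : Site d)).filter
    (fun z => ρ1 * (Q (2 * r) z).card ≤ (A ∩ S z).card) with hZZ
  set q2 : ℝ := (4 * (r : ℝ) + 1) ^ d with hq2
  have hq2p : 0 < q2 := by positivity
  have hcount : ∑ z ∈ Q (R + 2 * r) (0 : Site d), ((A ∩ S z).card : ℝ) =
      ∑ x ∈ A, ((S x).card : ℝ) := by
    have h1 : ∀ z, ((A ∩ S z).card : ℝ) = ∑ x ∈ A ∩ S z, (1 : ℝ) := by
      intro z
      simp
    have h2 : ∀ x, ((S x).card : ℝ) = ∑ z ∈ S x, (1 : ℝ) := by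
      intro x
      simp
    rw [sum_congr rfl fun z _ => h1 z, sum_congr rfl fun x _ => h2 x]
    symm
    refine sum_comm' fun x z => ?_
    rw [mem_inter]
    constructor
    · rintro ⟨hx, hz⟩
      refine ⟨⟨hx, (hmemS x z).1 hz⟩, ?_⟩
      have h2 : z ∈ Q (2 * r) x := (mem_sdiff.1 hz).1
      have h3 := Qtri (2 * r) R x 0 (hA hx) h2
      rwa [Nat.add_comm] at h3
    · rintro ⟨⟨hx, hz⟩, _⟩
      exact ⟨hx, (hmemS x z).2 hz⟩
  have hQR : ((Q (R + 2 * r) (0 : Site d)).card : ℝ) ≤ 3 ^ d * (Q R (0 : Site d)).card := by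
    rw [Qcard, Qcard]
    push_cast
    rw [← mul_pow]
    have hRr : (r : ℝ) ≤ R := by exact_mod_cast hrR
    exact pow_le_pow_left₀ (by positivity) (by linarith) d
  have hZ : ρ / 5 * (Q R (0 : Site d)).card ≤ (ZZ.card : ℝ) := by
    have h1 : 2 / 5 * q2 * A.card ≤ ∑ x ∈ A, ((S x).card : ℝ) := by
      have : ∑ x ∈ A, (2 / 5 * q2) ≤ ∑ x ∈ A, ((S x).card : ℝ) := by
        refine sum_le_sum fun x _ => ?_
        have := hScard x
        rwa [hQ2card] at this
      rw [sum_const, nsmul_eq_mul] at this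
      linarith
    have h2 : ∑ z ∈ Q (R + 2 * r) (0 : Site d), ((A ∩ S z).card : ℝ) ≤
        ZZ.card * q2 + (Q (R + 2 * r) (0 : Site d)).card * (ρ1 * q2) := by
      rw [← sum_filter_add_sum_filter_not (Q (R + 2 * r) (0 : Site d))
        (fun z => ρ1 * (Q (2 * r) z).card ≤ (A ∩ S z).card)]
      refine add_le_add ?_ ?_
      · rw [← hZZ]
        calc ∑ z ∈ ZZ, ((A ∩ S z).card : ℝ) ≤ ∑ z ∈ ZZ, q2 := by
              refine sum_le_sum fun z _ => ?_
              rw [← hQ2card z]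
              exact_mod_cast card_le_card (inter_subset_right.trans sdiff_subset)
          _ = ZZ.card * q2 := by rw [sum_const, nsmul_eq_mul]
      · calc ∑ z ∈ (Q (R + 2 * r) (0 : Site d)).filter
              (fun z => ¬ ρ1 * (Q (2 * r) z).card ≤ (A ∩ S z).card), ((A ∩ S z).card : ℝ)
            ≤ ∑ z ∈ (Q (R + 2 * r) (0 : Site d)).filter
              (fun z => ¬ ρ1 * (Q (2 * r) z).card ≤ (A ∩ S z).card), ρ1 * q2 := by
              refine sum_le_sum fun z hz => ?_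
              have := (mem_filter.1 hz).2
              rw [hQ2card] at this
              exact (not_le.1 this).le
          _ ≤ (Q (R + 2 * r) (0 : Site d)).card * (ρ1 * q2) := by
              rw [sum_const, nsmul_eq_mul]
              refine mul_le_mul_of_nonneg_right ?_ (by positivity)
              exact_mod_cast card_le_card (filter_subset _ _)
    rw [hcount] at h2
    have h3 : 2 / 5 * q2 * A.card ≤
        ZZ.card * q2 + (Q (R + 2 * r) (0 : Site d)).card * (ρ1 * q2) := le_trans h1 h2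
    have h4 : 2 / 5 * (A.card : ℝ) ≤ ZZ.card + (Q (R + 2 * r) (0 : Site d)).card * ρ1 := by
      by_contra hcon
      push Not at hcon
      nlinarith
    have h5 : ((Q (R + 2 * r) (0 : Site d)).card : ℝ) * ρ1 ≤ ρ / 5 * (Q R (0 : Site d)).card := by
      calc ((Q (R + 2 * r) (0 : Site d)).card : ℝ) * ρ1
          ≤ 3 ^ d * (Q R (0 : Site d)).card * ρ1 := mul_le_mul_of_nonneg_right hQR hρ1p.le
        _ = ρ / 5 * (Q R (0 : Site d)).card := by
            rw [hρ1]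
            field_simp
    linarith
  -- conclusion
  have hfin : ρ / 5 * (Q R (0 : Site d)).card * (c0 * ρ1 ^ γ * (4 * (r : ℝ) ^ 2)) ≤
      ∑ z ∈ Q (R + 2 * r) (0 : Site d), Gr p (Q ((b - 2) * r) z) (ind (A ∩ S z)) z := by
    have h1 : ∑ z ∈ ZZ, c0 * ρ1 ^ γ * (4 * (r : ℝ) ^ 2) ≤
        ∑ z ∈ ZZ, Gr p (Q ((b - 2) * r) z) (ind (A ∩ S z)) z := by
      refine sum_le_sum fun z hz => le_trans ?_ (stepC z)
      refine mul_le_mul_of_nonneg_right ?_ (by positivity)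
      refine mul_le_mul_of_nonneg_left ?_ hc0.le
      refine Real.rpow_le_rpow hρ1p.le ?_ hγ.le
      have h2 := (mem_filter.1 hz).2
      have h3 : (0 : ℝ) < (Q (2 * r) z).card := by rw [hQ2card]; exact hq2p
      rw [le_div_iff₀ h3]
      exact h2
    have h2 : ∑ z ∈ ZZ, Gr p (Q ((b - 2) * r) z) (ind (A ∩ S z)) z ≤
        ∑ z ∈ Q (R + 2 * r) (0 : Site d), Gr p (Q ((b - 2) * r) z) (ind (A ∩ S z)) z := by
      refine sum_le_sum_of_subset_of_nonneg (filter_subset _ _) fun z _ _ => ?_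
      refine (hGCM d κ p hκ hp _).2.2.2.1 _ (fun y _ => ?_) z
      unfold ind
      split_ifs <;> norm_num
    rw [sum_const, nsmul_eq_mul] at h1
    refine le_trans ?_ (le_trans h1 h2)
    exact mul_le_mul_of_nonneg_right hZ (by positivity)
  calc c1 / 5 ^ d * (ρ / 5) * c0 * ρ1 ^ γ * 4 * (r : ℝ) ^ 2 / (r : ℝ) ^ d *
        (Q R (0 : Site d)).card
      = c1 / (5 * (r : ℝ)) ^ d * (ρ / 5 * (Q R (0 : Site d)).card *
        (c0 * ρ1 ^ γ * (4 * (r : ℝ) ^ 2))) := by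
        rw [mul_pow]
        field_simp
    _ ≤ c1 / (5 * (r : ℝ)) ^ d * ∑ x ∈ A, ∑ z ∈ S x, gg p (Q (b * r) x) z x :=
        mul_le_mul_of_nonneg_left (le_trans hfin stepB) (by positivity)
    _ = ∑ x ∈ A, c1 / (5 * (r : ℝ)) ^ d * ∑ z ∈ S x, gg p (Q (b * r) x) z x := by
        rw [mul_sum]
    _ ≤ ∑ x ∈ A, (gg p (Q (b * r) x) x x - gg p (Q r x) x x) := sum_le_sum stepA

end Pool.Agent.Helper99.WPP
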