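import Pool.Agent.Helper99.WP.GoalsE

open Finset MeasureTheory ProbabilityTheory Filter

namespace Pool.Agent.Helper99.WPP

open Pool.Agent.Helper99.ERW Pool.Agent.Helper99.WP

theorem ARW : ARW_stmt := by
  intro d ω Λ π m
  unfold pathProb
  refine Finset.prod_congr rfl fun k _ => ?_
  have hc : cnt π k = pastVisits (fun k => (π k : Site d)) k := by
    unfold cnt pastVisits
    congr 1
    refine Finset.filter_congr fun r _ => ?_
    exact Subtype.ext_iff
  unfold arrW stepProb
  rw [hc]
  refine Finset.sum_congr rfl fun e _ => ?_
  by_cases h : ((π (k + 1) : Site d)) = (π k : Site d) + vec e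
  · rw [if_pos h, if_pos h.symm]
  · rw [if_neg h, if_neg fun h' => h h'.symm]

theorem SHF : SHF_stmt := by
  intro d P hP π m x
  have hm : Measurable (shift x : Env d → Env d) := by
    unfold shift
    exact measurable_pi_lambda _ fun z => measurable_pi_apply _
  conv_rhs => rw [← hP x]
  rw [lintegral_map ((measurable_pathProb _ m).ennreal_ofReal) hm]
  refine lintegral_congr fun ω => ?_
  congr 1
  unfold pathProb
  refine Finset.prod_congr rfl fun k _ => ?_
  unfold stepProb
  refine Finset.sum_congr rfl fun e _ => ?_
  have hpv : pastVisits (fun k => π k - x) k = pastVisits π k := by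
    unfold pastVisits
    congr 1
    refine Finset.filter_congr fun r _ => ?_
    simp
  rw [hpv]
  have h2 : shift x ω (π k - x) = ω (π k) := by
    unfold shift
    rw [sub_add_cancel]
  rw [h2]
  by_cases h : π (k + 1) = π k + vec e
  · rw [if_pos h, if_pos]
    change π (k + 1) - x = π k - x + vec e
    rw [h]; abel
  · rw [if_neg h, if_neg]
    intro h'
    apply h
    change π (k + 1) - x = π k - x + vec e at h'
    have := congrArg (· + x) h'
    simp only [sub_add_cancel] at this
    rw [this]; abel

end Pool.Agent.Helper99.WPP
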